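import Pool.Agent.E8helper78.NC.Main

/-!
Abelian groups: the end points of Hamiltonian paths generate the group.
-/

namespace Pool.Agent.E8helper78.I2

open Pool.Agent.E8helper78.NC

universe u

section comm

variable {A : Type u} [CommGroup A]

theorem abel_step [Finite A] {S : Set A} (hS : ∀ s ∈ S, s⁻¹ ∈ S) {H : Subgroup A} {a : A}
    (haS : a ∈ S) (ha : a ∉ H) (hne : (Wd S (H : Set A)).Nonempty)
    (hgen : H ≤ Subgroup.closure (Wd S (H : Set A))) :
    (Wd S ((H ⊔ Subgroup.zpowers a : Subgroup A) : Set A)).Nonempty ∧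
    a ∈ Subgroup.closure (Wd S ((H ⊔ Subgroup.zpowers a : Subgroup A) : Set A)) := by
  obtain ⟨t, ht, hat, htd⟩ := exists_exp H a
  set K := Subgroup.closure (Wd S ((H ⊔ Subgroup.zpowers a : Subgroup A) : Set A)) with hK
  have hpath : ∀ w ∈ Wd S (H : Set A), ∀ v ∈ Wd S (H : Set A),
      (w * a) ^ (t - 1) * v ∈ Wd S ((H ⊔ Subgroup.zpowers a : Subgroup A) : Set A) := by
    intro w hw v hv
    have hwH : w ∈ H := Wd_sub hw
    have hpw : ∀ k : ℕ, (w * a) ^ k ∈ H ↔ a ^ k ∈ H := by
      intro k
      rw [mul_pow]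
      exact H.mul_mem_cancel_left (H.pow_mem hwH k)
    obtain ⟨q', hq', hp', -⟩ := (CP_nil H (Stp (Wd S (H : Set A)) a)).iterate
      (t := w * a) ⟨w, hw, Or.inl rfl⟩ t ht (by
        intro k hk hkt y hy hgy
        rw [List.prod_nil, one_mul] at hgy
        have h1 : (w * a) ^ k ∈ H := by
          have := H.mul_mem hgy (H.inv_mem hy)
          simpa using this
        exact absurd (Nat.le_of_dvd hk (htd k ((hpw k).1 h1))) (by omega))
    rw [List.prod_nil, one_mul] at hp'
    have hq'' : CP H (Stp (Wd S (H : Set A)) a)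
        ((H ⊔ Subgroup.zpowers a : Subgroup A) : Set A) q' := by
      refine hq'.congr ?_
      intro x
      have h1 : H ⊔ Subgroup.zpowers (w * a) = H ⊔ Subgroup.zpowers a := by
        apply le_antisymm
        · apply sup_le le_sup_left
          rw [Subgroup.zpowers_le]
          exact Subgroup.mul_mem _ (Subgroup.mem_sup_left hwH)
            (Subgroup.mem_sup_right (Subgroup.mem_zpowers a))
        · apply sup_le le_sup_left
          rw [Subgroup.zpowers_le]
          have h2 := Subgroup.mul_mem (H ⊔ Subgroup.zpowers (w * a))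
            (Subgroup.mem_sup_left (H.inv_mem hwH))
            (Subgroup.mem_sup_right (Subgroup.mem_zpowers (w * a)))
          simpa using h2
      rw [← h1]
      have h3 := mem_adj (V := H) (g := w * a) (by
        intro v hv
        have e : (w * a)⁻¹ * v * (w * a) = v := by
          rw [mul_comm ((w * a)⁻¹) v, mul_assoc, inv_mul_cancel, mul_one]
        rw [e]; exact hv) ht ((hpw t).2 hat) x
      simp only [List.prod_nil, one_mul]
      exact h3
    have h4 := lift haS (hS a haS) hq'' hv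
    have h5 : q'.prod = (w * a) ^ (t - 1) := by
      have e : (w * a) ^ t = (w * a) ^ (t - 1) * (w * a) := by
        rw [← pow_succ]; congr 1; omega
      rw [e] at hp'
      exact mul_right_cancel hp'
    rw [h5] at h4
    exact h4
  obtain ⟨w0, hw0⟩ := hne
  refine ⟨⟨_, hpath w0 hw0 w0 hw0⟩, ?_⟩
  have hKp : ∀ v ∈ Wd S (H : Set A), (w0 * a) ^ (t - 1) * v ∈ K :=
    fun v hv => Subgroup.subset_closure (hpath w0 hw0 v hv)
  have hdiff : ∀ v ∈ Wd S (H : Set A), w0⁻¹ * v ∈ K := by
    intro v hv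
    have h1 := K.mul_mem (K.inv_mem (hKp w0 hw0)) (hKp v hv)
    have e : ((w0 * a) ^ (t - 1) * w0)⁻¹ * ((w0 * a) ^ (t - 1) * v) = w0⁻¹ * v := by group
    rwa [e] at h1
  have hsq : w0 * w0 ∈ K := by
    have h1 := K.inv_mem (hdiff _ (Wd_inv hS hw0))
    have e : (w0⁻¹ * w0⁻¹)⁻¹ = w0 * w0 := by rw [mul_inv_rev, inv_inv]
    rwa [e] at h1
  have hP : ∀ h ∈ Subgroup.closure (Wd S (H : Set A)), h ∈ K ∨ w0⁻¹ * h ∈ K := by
    intro h hh
    induction hh using Subgroup.closure_induction with
    | mem x hx => exact Or.inr (hdiff x hx)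
    | one => exact Or.inl K.one_mem
    | mul x y _ _ hx hy =>
      rcases hx with hx | hx <;> rcases hy with hy | hy
      · exact Or.inl (K.mul_mem hx hy)
      · right
        have e : w0⁻¹ * (x * y) = x * (w0⁻¹ * y) := by
          rw [mul_left_comm]
        rw [e]; exact K.mul_mem hx hy
      · right; rw [← mul_assoc]; exact K.mul_mem hx hy
      · left
        have e : x * y = (w0 * w0) * ((w0⁻¹ * x) * (w0⁻¹ * y)) := by
          rw [mul_mul_mul_comm w0⁻¹, ← mul_inv, mul_inv_cancel_left]
        rw [e]; exact K.mul_mem hsq (K.mul_mem hx hy)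
    | inv x _ hx =>
      rcases hx with hx | hx
      · exact Or.inl (K.inv_mem hx)
      · right
        have e : w0⁻¹ * x⁻¹ = (w0 * w0)⁻¹ * (w0⁻¹ * x)⁻¹ := by
          rw [← mul_inv, ← mul_inv, mul_assoc, mul_inv_cancel_left]
        rw [e]; exact K.mul_mem (K.inv_mem hsq) (K.inv_mem hx)
  have hPH : ∀ h ∈ H, h ∈ K ∨ w0⁻¹ * h ∈ K := fun h hh => hP h (hgen hh)
  have hw0H : w0 ∈ H := Wd_sub hw0
  have h1 : (w0 * a) ^ t ∈ H := by
    rw [mul_pow]; exact H.mul_mem (H.pow_mem hw0H t) hat
  have e : (w0 * a) ^ t = ((w0 * a) ^ (t - 1) * w0) * a := by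
    have e : (w0 * a) ^ t = (w0 * a) ^ (t - 1) * (w0 * a) := by
      rw [← pow_succ]; congr 1; omega
    rw [e, mul_assoc]
  have h2 := hPH _ h1
  have h3 : a ∈ K ∨ w0⁻¹ * a ∈ K := by
    rw [e] at h2
    rcases h2 with h2 | h2
    · left
      exact (K.mul_mem_cancel_left (hKp w0 hw0)).1 h2
    · right
      rw [mul_left_comm] at h2
      exact (K.mul_mem_cancel_left (hKp w0 hw0)).1 h2
  rcases h3 with h3 | h3
  · exact h3
  · have h4 : w0 * a ∈ K := by
      have e2 : w0 * a = (w0 * w0) * (w0⁻¹ * a) := by group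
      rw [e2]; exact K.mul_mem hsq h3
    have h5 : w0 ∈ K := (K.mul_mem_cancel_left (K.pow_mem h4 (t - 1))).1 (hKp w0 hw0)
    exact (K.mul_mem_cancel_left h5).1 h4

theorem abel_induction [Finite A] {S : Set A} (hS : ∀ s ∈ S, s⁻¹ ∈ S)
    (A0 : Finset A) : (∀ x ∈ A0, x ∈ S) →
    (∀ x ∈ A0, x ∉ Subgroup.closure ((A0 : Set A) \ {x})) →
    (Wd S ((Subgroup.closure (A0 : Set A) : Subgroup A) : Set A)).Nonempty ∧
      Subgroup.closure (A0 : Set A) ≤
        Subgroup.closure (Wd S ((Subgroup.closure (A0 : Set A) : Subgroup A) : Set A)) := by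
  classical
  induction A0 using Finset.strongInduction with
  | H A0 ih =>
    intro hA hirr
    rcases Finset.eq_empty_or_nonempty A0 with h0 | h0
    · subst h0
      rw [Finset.coe_empty, Subgroup.closure_empty]
      refine ⟨⟨1, [], ⟨by simp, by simp, ?_⟩, by simp⟩, bot_le⟩
      intro x; simp
    · have hstep : ∀ x ∈ A0,
          (Wd S ((Subgroup.closure (A0 : Set A) : Subgroup A) : Set A)).Nonempty ∧
          x ∈ Subgroup.closure (Wd S ((Subgroup.closure (A0 : Set A) : Subgroup A) : Set A)) := by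
        intro x hx
        have hco : ((A0.erase x : Finset A) : Set A) = (A0 : Set A) \ {x} := by
          rw [Finset.coe_erase]
        obtain ⟨h1, h2⟩ := ih (A0.erase x) (Finset.erase_ssubset hx)
          (fun y hy => hA y (Finset.mem_of_mem_erase hy)) (by
            intro y hy hy2
            apply hirr y (Finset.mem_of_mem_erase hy)
            apply Subgroup.closure_mono _ hy2
            rw [hco]
            exact fun z hz => ⟨hz.1.1, hz.2⟩)
        rw [hco] at h1 h2
        have hJ : Subgroup.closure ((A0 : Set A) \ {x}) ⊔ Subgroup.zpowers x =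
            Subgroup.closure (A0 : Set A) := by
          apply le_antisymm
          · apply sup_le
            · exact Subgroup.closure_mono (fun z hz => hz.1)
            · rw [Subgroup.zpowers_le]
              exact Subgroup.subset_closure hx
          · rw [Subgroup.closure_le]
            intro z hz
            by_cases hzx : z = x
            · subst hzx
              exact Subgroup.mem_sup_right (Subgroup.mem_zpowers z)
            · exact Subgroup.mem_sup_left (Subgroup.subset_closure ⟨hz, hzx⟩)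
        have := abel_step hS (hA x hx) (hirr x hx) h1 h2
        rw [hJ] at this
        exact this
      obtain ⟨x0, hx0⟩ := h0
      refine ⟨(hstep x0 hx0).1, ?_⟩
      rw [Subgroup.closure_le]
      intro x hx
      exact (hstep x hx).2

end comm

variable {Γ : Type u} [Group Γ]

theorem exists_irred [Finite Γ] (S : Set Γ) : ∃ A0 : Finset Γ, (∀ x ∈ A0, x ∈ S) ∧
    Subgroup.closure (A0 : Set Γ) = Subgroup.closure S ∧
    ∀ x ∈ A0, x ∉ Subgroup.closure ((A0 : Set Γ) \ {x}) := by
  classical
  have : Fintype Γ := Fintype.ofFinite Γ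
  let P : Set (Finset Γ) :=
    {s | (∀ x ∈ s, x ∈ S) ∧ Subgroup.closure (s : Set Γ) = Subgroup.closure S}
  have hPne : P.Nonempty := by
    refine ⟨Finset.univ.filter (· ∈ S), ?_, ?_⟩
    · intro x hx; exact (Finset.mem_filter.1 hx).2
    · congr 1; ext x; simp
  obtain ⟨A0, hA0⟩ := Set.Finite.exists_minimal (Set.toFinite P) hPne
  obtain ⟨⟨h1, h2⟩, hmin⟩ := hA0
  refine ⟨A0, h1, h2, ?_⟩
  intro x hx hxc
  have hP : A0.erase x ∈ P := by
    refine ⟨fun y hy => h1 y (Finset.mem_of_mem_erase hy), ?_⟩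
    rw [Finset.coe_erase]
    apply le_antisymm
    · exact Subgroup.closure_mono (fun y hy => h1 y hy.1)
    · rw [← h2, Subgroup.closure_le]
      intro z hz
      by_cases hzx : z = x
      · subst hzx; exact hxc
      · exact Subgroup.subset_closure ⟨hz, hzx⟩
  have h3 : A0 ≤ A0.erase x := hmin hP (Finset.erase_subset x A0)
  exact (Finset.notMem_erase x A0) (h3 hx)

theorem pp_map {A : Type u} [Group A] (ι : A →* Γ) (l : List A) :
    pp (l.map ι) = (pp l).map ι := by
  induction l with
  | nil => simp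
  | cons s l ih =>
    rw [List.map_cons, pp_cons, pp_cons, ih, List.map_cons, map_one, List.map_map, List.map_map]
    congr 1
    apply List.map_congr_left
    intro x _
    simp

/-- Hamiltonian paths of the subgroup generated by the elements of `S` in an abelian subgroup -/
theorem phaseA [Finite Γ] {S : Set Γ} (hS : ∀ s ∈ S, s⁻¹ ∈ S) (B : Subgroup Γ)
    (hB : ∀ x ∈ B, ∀ y ∈ B, x * y = y * x) :
    (Wd S ((Subgroup.closure (S ∩ (B : Set Γ)) : Subgroup Γ) : Set Γ)).Nonempty ∧
      Subgroup.closure (S ∩ (B : Set Γ)) ≤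
        Subgroup.closure (Wd S ((Subgroup.closure (S ∩ (B : Set Γ)) : Subgroup Γ) : Set Γ)) := by
  classical
  let cg : CommGroup B :=
    { (inferInstance : Group B) with
      mul_comm := by
        rintro ⟨x, hx⟩ ⟨y, hy⟩
        exact Subtype.ext (hB x hx y hy) }
  let S' : Set B := {x | (x : Γ) ∈ S}
  obtain ⟨A0, h1, h2, h3⟩ := exists_irred S'
  obtain ⟨k1, k2⟩ := @abel_induction B cg _ S' (fun s hs => hS s hs) A0 h1 h3
  rw [h2] at k1 k2
  have himg : (Subgroup.closure S').map B.subtype = Subgroup.closure (S ∩ (B : Set Γ)) := by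
    rw [MonoidHom.map_closure]
    congr 1
    ext x
    constructor
    · rintro ⟨y, hy, rfl⟩
      exact ⟨hy, y.2⟩
    · rintro ⟨hx, hxB⟩
      exact ⟨⟨x, hxB⟩, hx, rfl⟩
  have hW : ∀ w ∈ Wd S' ((Subgroup.closure S' : Subgroup B) : Set B),
      (w : Γ) ∈ Wd S ((Subgroup.closure (S ∩ (B : Set Γ)) : Subgroup Γ) : Set Γ) := by
    rintro w ⟨l, hl, rfl⟩
    refine ⟨l.map B.subtype, ⟨?_, ?_, ?_⟩, ?_⟩
    · intro s hs
      rw [List.mem_map] at hs
      obtain ⟨y, hy, rfl⟩ := hs
      exact hl.1 y hy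
    · rw [pp_map]
      exact hl.2.1.map Subtype.val_injective
    · intro x
      rw [pp_map, List.mem_map, ← himg]
      constructor
      · rintro ⟨y, hy, rfl⟩
        exact ⟨y, (hl.2.2 y).1 hy, rfl⟩
      · rintro ⟨y, hy, rfl⟩
        exact ⟨y, (hl.2.2 y).2 hy, rfl⟩
    · exact (map_list_prod B.subtype l).symm
  obtain ⟨w, hw⟩ := k1
  refine ⟨⟨w, hW w hw⟩, ?_⟩
  rw [← himg]
  refine le_trans (Subgroup.map_mono k2) ?_
  rw [MonoidHom.map_closure, Subgroup.closure_le]
  rintro x ⟨y, hy, rfl⟩
  have := Subgroup.subset_closure (hW y hy)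
  rw [← himg] at this
  exact this

end Pool.Agent.E8helper78.I2
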