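import Pool.Agent.E8helper78.I2.PhaseB

/-!
Hamiltonian paths in the Cayley graphs of finite groups with an abelian subgroup of index two.
-/

namespace Pool.Agent.E8helper78.I2

open Pool.Agent.E8helper78.NC

universe u

variable {Γ : Type u} [Group Γ] {B : Subgroup Γ}

/-- adjoining one more element outside `B` -/
theorem phaseC [Finite Γ] (hB : Two B) {S : Set Γ} (hS : ∀ s ∈ S, s⁻¹ ∈ S) {H : Subgroup Γ}
    {a : Γ} (haS : a ∈ S) (haB : a ∉ B) {w0 : Γ} (hw0 : w0 ∈ Wd S (H : Set Γ)) (hw0B : w0 ∉ B) :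
    ∃ w ∈ Wd S ((H ⊔ Subgroup.zpowers a : Subgroup Γ) : Set Γ), w ∉ B := by
  classical
  set J := H ⊔ Subgroup.zpowers a with hJ
  have hw0H : w0 ∈ H := Wd_sub hw0
  have hHJ : H ≤ J := le_sup_left
  have haJ : a ∈ J := Subgroup.mem_sup_right (Subgroup.mem_zpowers a)
  set D : Set Γ := {x | ∃ w ∈ Wd S (H : Set Γ), w ∉ B ∧ (x = w * a ∨ x = w * a⁻¹)} with hD
  set U := J ⊓ B with hU
  set R := H ⊓ B with hR
  have hDU : ∀ x ∈ D, x ∈ U := by
    rintro x ⟨w, hw, hwB, rfl | rfl⟩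
    · exact ⟨J.mul_mem (hHJ (Wd_sub hw)) haJ, hB.odd _ hwB _ haB⟩
    · exact ⟨J.mul_mem (hHJ (Wd_sub hw)) (J.inv_mem haJ), hB.odd _ hwB _ (inv_nmem haB)⟩
  obtain ⟨xs, hxs, -⟩ := ab_path R U (inf_le_inf_right B hHJ) (by
    intro u hu v hv
    have e : u⁻¹ * v⁻¹ * u * v = 1 := by
      have h1 := hB.comm u hu.2 v hv.2
      rw [mul_assoc, h1]; group
    rw [e]; exact R.one_mem) D hDU (by
    intro K hRK hDK
    -- the subgroup generated by `R`, `w0 a` and `w0 a⁻¹`
    set K1 := Subgroup.closure ((R : Set Γ) ∪ {w0 * a, w0 * a⁻¹}) with hK1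
    have hK1K : K1 ≤ K := by
      rw [hK1, Subgroup.closure_le]
      rintro x (hx | hx | hx)
      · exact hRK hx
      · rw [hx]; exact hDK _ ⟨w0, hw0, hw0B, Or.inl rfl⟩
      · rw [Set.mem_singleton_iff] at hx
        rw [hx]; exact hDK _ ⟨w0, hw0, hw0B, Or.inr rfl⟩
    have hRK1 : R ≤ K1 := fun x hx => Subgroup.subset_closure (Or.inl hx)
    have hκ : w0 * a ∈ K1 := Subgroup.subset_closure (Or.inr (Or.inl rfl))
    have hκ' : w0 * a⁻¹ ∈ K1 := Subgroup.subset_closure (Or.inr (Or.inr rfl))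
    have hsq : w0 * w0 ∈ K1 := hRK1 ⟨H.mul_mem hw0H hw0H, hB.odd _ hw0B _ hw0B⟩
    have hnorm : ∀ x ∈ K1, w0⁻¹ * x * w0 ∈ K1 := by
      intro x hx
      induction hx using Subgroup.closure_induction with
      | mem x hx =>
        rcases hx with hx | hx | hx
        · exact hRK1 ⟨H.mul_mem (H.mul_mem (H.inv_mem hw0H) hx.1) hw0H, by
            have := th_mem hB hw0B hx.2
            rwa [th_apply] at this⟩
        · rw [hx]
          have e : w0⁻¹ * (w0 * a) * w0 = (w0 * a⁻¹)⁻¹ * (w0 * w0) := by group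
          rw [e]; exact K1.mul_mem (K1.inv_mem hκ') hsq
        · rw [Set.mem_singleton_iff] at hx
          rw [hx]
          have e : w0⁻¹ * (w0 * a⁻¹) * w0 = (w0 * a)⁻¹ * (w0 * w0) := by group
          rw [e]; exact K1.mul_mem (K1.inv_mem hκ) hsq
      | one => simp
      | mul x y _ _ hx hy =>
        have e : w0⁻¹ * (x * y) * w0 = (w0⁻¹ * x * w0) * (w0⁻¹ * y * w0) := by group
        rw [e]; exact K1.mul_mem hx hy
      | inv x _ hx =>
        have e : w0⁻¹ * x⁻¹ * w0 = (w0⁻¹ * x * w0)⁻¹ := by group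
        rw [e]; exact K1.inv_mem hx
    -- all elements of `J` lie in `K1` or in `w0 K1`
    let X : Subgroup Γ :=
      { carrier := {x | x ∈ K1 ∨ w0⁻¹ * x ∈ K1}
        one_mem' := Or.inl K1.one_mem
        mul_mem' := by
          rintro x y (hx | hx) (hy | hy)
          · exact Or.inl (K1.mul_mem hx hy)
          · right
            have e : w0⁻¹ * (x * y) = (w0⁻¹ * x * w0) * (w0⁻¹ * y) := by group
            rw [e]; exact K1.mul_mem (hnorm x hx) hy
          · right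
            rw [← mul_assoc]; exact K1.mul_mem hx hy
          · left
            have e : x * y = (w0 * w0) * ((w0⁻¹ * (w0⁻¹ * x) * w0) * (w0⁻¹ * y)) := by group
            rw [e]; exact K1.mul_mem hsq (K1.mul_mem (hnorm _ hx) hy)
        inv_mem' := by
          rintro x (hx | hx)
          · exact Or.inl (K1.inv_mem hx)
          · right
            have e : w0⁻¹ * x⁻¹ = (w0⁻¹ * (w0⁻¹ * x)⁻¹ * w0) * (w0 * w0)⁻¹ := by group
            rw [e]; exact K1.mul_mem (hnorm _ (K1.inv_mem hx)) (K1.inv_mem hsq) }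
    have hHX : H ≤ X := by
      intro h hh
      by_cases hhB : h ∈ B
      · exact Or.inl (hRK1 ⟨hh, hhB⟩)
      · exact Or.inr (hRK1 ⟨H.mul_mem (H.inv_mem hw0H) hh, hB.odd _ (inv_nmem hw0B) _ hhB⟩)
    have haX : a ∈ X := by
      right
      have e : w0⁻¹ * a = (w0 * w0)⁻¹ * (w0 * a) := by group
      rw [e]; exact K1.mul_mem (K1.inv_mem hsq) hκ
    have hJX : J ≤ X := sup_le hHX (by rw [Subgroup.zpowers_le]; exact haX)
    have hK1B : K1 ≤ B := by
      rw [hK1, Subgroup.closure_le]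
      rintro x (hx | hx | hx)
      · exact hx.2
      · rw [hx]; exact hB.odd _ hw0B _ haB
      · rw [Set.mem_singleton_iff] at hx
        rw [hx]; exact hB.odd _ hw0B _ (inv_nmem haB)
    rintro x ⟨hxJ, hxB⟩
    rcases hJX hxJ with h | h
    · exact hK1K h
    · exact absurd ((B.mul_mem_cancel_right hxB).1 (hK1B h)) (inv_nmem hw0B))
  have hxsU : ∀ x ∈ pp xs, x ∈ U := by
    apply pp_mem
    intro x hx
    exact hDU x (hxs.1 x hx)
  have hq : CP H (Stp (Wd S (H : Set Γ)) a) (J : Set Γ) xs := by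
    refine ⟨?_, ?_, ?_⟩
    · intro s hs
      obtain ⟨w, hw, -, h⟩ := hxs.1 s hs
      exact ⟨w, hw, h⟩
    · unfold dis
      have h1 : (pp xs).Pairwise (fun g g' => g⁻¹ * g' ∉ R) := hxs.2.1
      refine h1.imp_of_mem ?_
      intro x y hx hy hxy h
      exact hxy ⟨h, B.mul_mem (B.inv_mem (hxsU x hx).2) (hxsU y hy).2⟩
    · intro x
      constructor
      · intro hx
        by_cases hxB : x ∈ B
        · obtain ⟨b, hb, hbx⟩ := (hxs.2.2 x).1 ⟨hx, hxB⟩
          exact ⟨b, hb, hbx.1⟩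
        · have h1 : x * w0 ∈ U := ⟨J.mul_mem hx (hHJ hw0H), hB.odd _ hxB _ hw0B⟩
          obtain ⟨b, hb, hbx⟩ := (hxs.2.2 (x * w0)).1 h1
          refine ⟨b, hb, ?_⟩
          have h2 := H.mul_mem hbx.1 (H.inv_mem hw0H)
          have e : b⁻¹ * (x * w0) * w0⁻¹ = b⁻¹ * x := by group
          rwa [e] at h2
      · rintro ⟨b, hb, hbx⟩
        have := J.mul_mem (hxsU b hb).1 (hHJ hbx)
        rwa [mul_inv_cancel_left] at this
  refine ⟨_, lift haS (hS a haS) hq hw0, ?_⟩
  exact mul_nmem' hw0B (hxsU _ (prod_mem_pp xs)).2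

/-- a Hamiltonian path in every Cayley graph of a group with an abelian subgroup of index two -/
theorem wd_top [Finite Γ] (hB : Two B) {S : Set Γ} (hS : ∀ s ∈ S, s⁻¹ ∈ S)
    (hgen : Subgroup.closure S = ⊤) {s0 : Γ} (hs0 : s0 ∈ S) (hs0B : s0 ∉ B) :
    (Wd S ((⊤ : Subgroup Γ) : Set Γ)).Nonempty := by
  classical
  obtain ⟨hA1, hA2⟩ := phaseA hS B hB.comm
  set H0 := Subgroup.closure (S ∩ (B : Set Γ)) with hH0
  have hH0B : H0 ≤ B := by
    rw [hH0, Subgroup.closure_le]
    exact Set.inter_subset_right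
  let P : Set (Subgroup Γ) := {H | H0 ≤ H ∧ ∃ w ∈ Wd S (H : Set Γ), w ∉ B}
  have hPne : P.Nonempty := by
    obtain ⟨q', hq', hq'B⟩ := phaseB hB hs0B hH0B (W := Wd S (H0 : Set Γ))
      (fun w hw => Wd_sub hw) (fun w hw => Wd_inv hS hw) hA1 hA2
    obtain ⟨w, hw⟩ := hA1
    refine ⟨H0 ⊔ Subgroup.zpowers s0, le_sup_left, _, lift hs0 (hS s0 hs0) hq' hw, ?_⟩
    exact mul_nmem hq'B (hH0B (Wd_sub hw))
  obtain ⟨H, hH⟩ := Set.Finite.exists_maximal (Set.toFinite P) hPne
  obtain ⟨⟨hH0H, w0, hw0, hw0B⟩, hmax⟩ := hH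
  have hSH : S ⊆ H := by
    intro s hs
    by_cases hsB : s ∈ B
    · exact hH0H (Subgroup.subset_closure ⟨hs, hsB⟩)
    · obtain ⟨w, hw, hwB⟩ := phaseC hB hS hs hsB hw0 hw0B
      have h1 : H ⊔ Subgroup.zpowers s ∈ P := ⟨le_trans hH0H le_sup_left, w, hw, hwB⟩
      exact hmax h1 le_sup_left (Subgroup.mem_sup_right (Subgroup.mem_zpowers s))
  have htop : H = ⊤ := by
    rw [eq_top_iff, ← hgen, Subgroup.closure_le]
    exact hSH
  rw [htop] at hw0
  exact ⟨w0, hw0⟩

/-- a listing sequence from a Hamiltonian path -/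
theorem listing [Finite Γ] {S : Set Γ} (hne : S.Nonempty)
    (h : (Wd S ((⊤ : Subgroup Γ) : Set Γ)).Nonempty) :
    ∃ a : Fin (Nat.card Γ) → Γ, (∀ i, a i ∈ S) ∧
      Function.Injective (fun k : Fin (Nat.card Γ) => ((List.ofFn a).take (k.val + 1)).prod) := by
  classical
  have : Fintype Γ := Fintype.ofFinite Γ
  obtain ⟨w, l, hl, -⟩ := h
  obtain ⟨b, hb⟩ := hne
  have hall : ∀ x : Γ, x ∈ pp l := fun x => (hl.2.2 x).1 (Subgroup.mem_top x)
  have hcard : (pp l).length = Nat.card Γ := by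
    rw [Nat.card_eq_fintype_card, ← List.toFinset_card_of_nodup hl.2.1]
    have : (pp l).toFinset = Finset.univ := by
      ext x; simp [hall x]
    rw [this]; rfl
  have hlen : (b :: l).length = Nat.card Γ := by
    rw [← hcard, pp_length]; rfl
  let a : Fin (Nat.card Γ) → Γ := fun i => (b :: l).get (i.cast hlen.symm)
  have hofn : List.ofFn a = b :: l := by
    apply List.ext_getElem
    · rw [List.length_ofFn, hlen]
    · intro i h1 h2
      simp [a]
  refine ⟨a, ?_, ?_⟩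
  · intro i
    have : a i ∈ b :: l := List.get_mem _ _
    rw [List.mem_cons] at this
    rcases this with h | h
    · rw [h]; exact hb
    · exact hl.1 _ h
  · intro i j hij
    simp only [hofn, List.take_succ_cons, List.prod_cons, mul_right_inj] at hij
    have hi : i.val < (pp l).length := by rw [hcard]; exact i.isLt
    have hj : j.val < (pp l).length := by rw [hcard]; exact j.isLt
    rw [← getElem_pp l i.val hi, ← getElem_pp l j.val hj] at hij
    have := (List.Nodup.getElem_inj_iff hl.2.1).1 hij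
    exact Fin.ext this

end Pool.Agent.E8helper78.I2
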