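import Pool.Agent.E8helper78.I2.Zig

/-!
The coset path for the first element outside the abelian subgroup of index two.
-/

namespace Pool.Agent.E8helper78.I2

open Pool.Agent.E8helper78.NC

universe u

variable {Γ : Type u} [Group Γ] {B : Subgroup Γ} {g : Γ}

theorem com5 {A : Type u} [CommGroup A] (a b x y : A) :
    (a * b)⁻¹ * (x * y) = (a⁻¹ * x) * (b⁻¹ * y) := by
  rw [mul_inv, mul_mul_mul_comm]

theorem com6 {A : Type u} [CommGroup A] (a x : A) : (a⁻¹)⁻¹ * x⁻¹ = (a⁻¹ * x)⁻¹ := by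
  rw [mul_inv]

theorem mem_of_th (hB : Two B) (hg : g ∉ B) {H : Subgroup Γ} (hH : H ≤ B) {u x : Γ} (hu : u ∈ H)
    (hx : (th g u)⁻¹ * x ∈ H) : x ∈ B :=
  (B.mul_mem_cancel_left (B.inv_mem (th_mem hB hg (hH hu)))).1 (hH hx)

/-- the subgroup `θ(H) H` -/
def N2 (hB : Two B) (hg : g ∉ B) {H : Subgroup Γ} (hH : H ≤ B) : Subgroup Γ where
  carrier := {x | ∃ u ∈ H, (th g u)⁻¹ * x ∈ H}
  one_mem' := ⟨1, H.one_mem, by simp⟩
  mul_mem' := by
    rintro x y ⟨u, hu, hx⟩ ⟨v, hv, hy⟩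
    refine ⟨u * v, H.mul_mem hu hv, ?_⟩
    have e : (th g u * th g v)⁻¹ * (x * y) = ((th g u)⁻¹ * x) * ((th g v)⁻¹ * y) :=
      congrArg Subtype.val (@com5 B (cgB hB) ⟨th g u, th_mem hB hg (hH hu)⟩
        ⟨th g v, th_mem hB hg (hH hv)⟩ ⟨x, mem_of_th hB hg hH hu hx⟩
        ⟨y, mem_of_th hB hg hH hv hy⟩)
    rw [map_mul, e]; exact H.mul_mem hx hy
  inv_mem' := by
    rintro x ⟨u, hu, hx⟩
    refine ⟨u⁻¹, H.inv_mem hu, ?_⟩
    have e : ((th g u)⁻¹)⁻¹ * x⁻¹ = ((th g u)⁻¹ * x)⁻¹ :=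
      congrArg Subtype.val (@com6 B (cgB hB) ⟨th g u, th_mem hB hg (hH hu)⟩
        ⟨x, mem_of_th hB hg hH hu hx⟩)
    rw [map_inv, e]; exact H.inv_mem hx

theorem N2_le (hB : Two B) (hg : g ∉ B) {H : Subgroup Γ} (hH : H ≤ B) : N2 hB hg hH ≤ B := by
  rintro x ⟨u, hu, hx⟩
  exact mem_of_th hB hg hH hu hx

theorem H_le_N2 (hB : Two B) (hg : g ∉ B) {H : Subgroup Γ} (hH : H ≤ B) : H ≤ N2 hB hg hH := by
  intro h hh; exact ⟨1, H.one_mem, by simpa using hh⟩

theorem th_mem_N2 (hB : Two B) (hg : g ∉ B) {H : Subgroup Γ} (hH : H ≤ B) {u : Γ} (hu : u ∈ H) :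
    th g u ∈ N2 hB hg hH := ⟨u, hu, by simp⟩

theorem N2_norm (hB : Two B) (hg : g ∉ B) {H : Subgroup Γ} (hH : H ≤ B) :
    ∀ n ∈ N2 hB hg hH, g⁻¹ * n * g ∈ N2 hB hg hH := by
  rintro n ⟨u, hu, hx⟩
  have e : g⁻¹ * n * g = u * th g ((th g u)⁻¹ * n) := by
    rw [← th_apply, map_mul, map_inv, th_th hB hg (hH hu), mul_inv_cancel_left]
  rw [e]
  exact Subgroup.mul_mem _ (H_le_N2 hB hg hH hu) (th_mem_N2 hB hg hH hx)

theorem N2_le_sup (hB : Two B) (hg : g ∉ B) {H : Subgroup Γ} (hH : H ≤ B) :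
    N2 hB hg hH ≤ H ⊔ Subgroup.zpowers g := by
  rintro x ⟨u, hu, hx⟩
  have ha : g ∈ H ⊔ Subgroup.zpowers g := Subgroup.mem_sup_right (Subgroup.mem_zpowers g)
  have hu' : u ∈ H ⊔ Subgroup.zpowers g := Subgroup.mem_sup_left hu
  have h1 : th g u ∈ H ⊔ Subgroup.zpowers g := by
    rw [th_apply]
    exact Subgroup.mul_mem _ (Subgroup.mul_mem _ (Subgroup.inv_mem _ ha) hu') ha
  have h2 := Subgroup.mul_mem _ h1 (Subgroup.mem_sup_left hx : _ ∈ H ⊔ Subgroup.zpowers g)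
  simpa using h2

theorem sup_eq2 (hB : Two B) (hg : g ∉ B) {H : Subgroup Γ} (hH : H ≤ B) :
    N2 hB hg hH ⊔ Subgroup.zpowers g = H ⊔ Subgroup.zpowers g := by
  apply le_antisymm
  · exact sup_le (N2_le_sup hB hg hH) le_sup_right
  · exact sup_le (le_trans (H_le_N2 hB hg hH) le_sup_left) le_sup_right

theorem com7 {A : Type u} [CommGroup A] (b u : A) : b = (b⁻¹ * u⁻¹)⁻¹ * u⁻¹ := by
  rw [mul_inv, inv_inv, inv_inv, mul_inv_cancel_right]

theorem com8 {A : Type u} [CommGroup A] (b u f : A) :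
    b⁻¹ * f⁻¹ = (b⁻¹ * (u * f⁻¹)) * u⁻¹ := by
  rw [mul_comm u f⁻¹, ← mul_assoc b⁻¹, mul_inv_cancel_right]

theorem phaseB [Finite Γ] (hB : Two B) (hg : g ∉ B) {H : Subgroup Γ} (hH : H ≤ B) {W : Set Γ}
    (hWH : ∀ w ∈ W, w ∈ H) (hWi : ∀ w ∈ W, w⁻¹ ∈ W) (hWne : W.Nonempty)
    (hgen : H ≤ Subgroup.closure W) :
    ∃ q' : List Γ, CP H (Stp W g) ((H ⊔ Subgroup.zpowers g : Subgroup Γ) : Set Γ) q' ∧
      q'.prod ∉ B := by
  classical
  set N := N2 hB hg hH with hN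
  have hNB : N ≤ B := N2_le hB hg hH
  obtain ⟨r, hr, har, hrd⟩ := exists_exp N g
  have hgg : g * g ∈ B := hB.odd g hg g hg
  have hev : Even r := by
    rcases Nat.even_or_odd r with h | ⟨s, hs⟩
    · exact h
    · exfalso
      have h1 : g ^ r ∈ B := hNB har
      rw [hs, pow_succ, pow_mul, pow_two] at h1
      exact mul_nmem' hg (B.pow_mem hgg s) h1
  set R := H ⊓ H.comap (th g) with hR
  obtain ⟨xs, hxs, -⟩ := ab_path R H inf_le_left (by
    intro u hu v hv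
    have e : u⁻¹ * v⁻¹ * u * v = 1 := by
      have h1 := hB.comm u (hH hu) v (hH hv)
      rw [mul_assoc, h1]; group
    rw [e]; exact R.one_mem) W hWH (by
    intro K _ hWK
    exact le_trans hgen ((Subgroup.closure_le K).2 hWK))
  obtain ⟨f, hf⟩ := hWne
  have hfH := hWH f hf
  have hxW : ∀ x ∈ xs, x ∈ W := hxs.1
  have hxH : ∀ x ∈ xs, x ∈ H := fun x hx => hWH x (hxW x hx)
  have hRR : ∀ b ∈ H, th g b ∈ H → b ∈ R := fun b hb h => ⟨hb, h⟩
  have hppH := pp_mem hxH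
  set L := xs.prod with hL
  have hLH : L ∈ H := hppH _ (prod_mem_pp xs)
  set t' := tl f xs * g with ht'
  have ht'S : t' ∈ Stp W g := ⟨tl f xs, tl_mem xs f hf hxW, Or.inl rfl⟩
  have hst : CP H (Stp W g) {x | (∃ b ∈ pp xs, th g b * x ∈ H) ∨
      (∃ b ∈ ppi xs, (g * th g f * th g b)⁻¹ * x ∈ H)} (qst g f xs xs) :=
    ⟨steps_qst hWi xs xs f hf hxW hxW,
      dis_zig hB hg hH hRR xs xs f rfl hfH hxH hxH hxs.2.1 hxs.2.1,
      fun x => (cov_zig hB hg hH xs xs f rfl hfH hxH hxH x).symm⟩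
  have hv := prod_zig hB hg hH xs xs f rfl hfH hxH hxH
  rw [← ht', ← hL] at hv
  set v := (qst g f xs xs).prod * t' with hvdef
  have hvx : ∀ x, v⁻¹ * x ∈ H ↔ (g * th g f * th g L)⁻¹ * x ∈ H := by
    intro x
    have e : (g * th g f * th g L)⁻¹ * x = ((g * th g f * th g L)⁻¹ * v) * (v⁻¹ * x) := by group
    rw [e]
    exact (H.mul_mem_cancel_left hv).symm
  have hpx : pp xs = ppi xs ++ [L] := pp_eq_ppi xs
  have hpw : (ppi xs ++ [L]).Pairwise (fun g g' => g⁻¹ * g' ∉ R) := by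
    rw [← hpx]; exact hxs.2.1
  rw [List.pairwise_append] at hpw
  -- elements of the second type of coset
  have hcoset : ∀ b ∈ H, ∀ x, (g * th g f * th g b)⁻¹ * x ∈ H → g⁻¹ * x ∈ N := by
    intro b hb x hx
    refine ⟨f * b, H.mul_mem hfH hb, ?_⟩
    have e : (th g (f * b))⁻¹ * (g⁻¹ * x) = (g * th g f * th g b)⁻¹ * x := by
      rw [map_mul]; group
    rw [e]; exact hx
  have hfirst : ∀ b ∈ H, ∀ x, th g b * x ∈ H → x ∈ N := by
    intro b hb x hx
    refine ⟨b⁻¹, H.inv_mem hb, ?_⟩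
    rw [map_inv, inv_inv]; exact hx
  have hxor : ∀ x, x ∈ N → g⁻¹ * x ∈ N → False := by
    intro x h1 h2
    exact mul_nmem (inv_nmem hg) (hNB h1) (hNB h2)
  have h2 : CP H (Stp W g) {x | x ∈ N ∨ g⁻¹ * x ∈ N} (qst g f xs xs ++ t' :: []) := by
    refine (hst.concat (CP_nil H (Stp W g)) ht'S ?_).congr ?_
    · intro x hx1 hx2
      have hx2' := (hvx x).1 hx2
      rcases hx1 with ⟨b, hb, h⟩ | ⟨b, hb, h⟩
      · exact hxor x (hfirst b (hppH b hb) x h) (hcoset L hLH x hx2')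
      · have hbH := hppH b (ppi_sub hb)
        have h3 := H.mul_mem h (H.inv_mem hx2')
        have e : (g * th g f * th g b)⁻¹ * x * ((g * th g f * th g L)⁻¹ * x)⁻¹ =
            th g (b⁻¹ * L) := by
          rw [map_mul, map_inv]; group
        rw [e] at h3
        exact hpw.2.2 b hb L (by simp) (hRR _ (H.mul_mem (H.inv_mem hbH) hLH) h3)
    · intro x
      show (x ∈ N ∨ g⁻¹ * x ∈ N) ↔ ((∃ b ∈ pp xs, th g b * x ∈ H) ∨
        (∃ b ∈ ppi xs, (g * th g f * th g b)⁻¹ * x ∈ H)) ∨ v⁻¹ * x ∈ H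
      constructor
      · rintro (⟨u, hu, hx⟩ | ⟨u, hu, hx⟩)
        · left; left
          obtain ⟨b, hb, hbu⟩ := (hxs.2.2 u⁻¹).1 (H.inv_mem hu)
          refine ⟨b, hb, ?_⟩
          have h3 : th g (b⁻¹ * u⁻¹) ∈ H := hbu.2
          rw [map_mul, map_inv, map_inv] at h3
          have e1 : th g b = ((th g b)⁻¹ * (th g u)⁻¹)⁻¹ * (th g u)⁻¹ :=
            congrArg Subtype.val (@com7 B (cgB hB) ⟨th g b, th_mem hB hg (hH (hppH b hb))⟩
              ⟨th g u, th_mem hB hg (hH hu)⟩)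
          rw [e1, mul_assoc]
          exact H.mul_mem (H.inv_mem h3) hx
        · obtain ⟨b, hb, hbu⟩ := (hxs.2.2 (u * f⁻¹)).1 (H.mul_mem hu (H.inv_mem hfH))
          have h3 : th g (b⁻¹ * (u * f⁻¹)) ∈ H := hbu.2
          rw [map_mul, map_mul, map_inv, map_inv] at h3
          have e1 : (th g b)⁻¹ * (th g f)⁻¹ =
              ((th g b)⁻¹ * (th g u * (th g f)⁻¹)) * (th g u)⁻¹ :=
            congrArg Subtype.val (@com8 B (cgB hB) ⟨th g b, th_mem hB hg (hH (hppH b hb))⟩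
              ⟨th g u, th_mem hB hg (hH hu)⟩ ⟨th g f, th_mem hB hg (hH hfH)⟩)
          have h4 : (g * th g f * th g b)⁻¹ * x ∈ H := by
            have e : (g * th g f * th g b)⁻¹ * x =
                ((th g b)⁻¹ * (th g f)⁻¹) * (g⁻¹ * x) := by group
            rw [e, e1, mul_assoc]
            exact H.mul_mem h3 hx
          rw [hpx, List.mem_append] at hb
          rcases hb with hb | hb
          · left; right; exact ⟨b, hb, h4⟩
          · right
            rw [List.mem_singleton] at hb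
            subst hb
            exact (hvx x).2 h4
      · rintro ((⟨b, hb, h⟩ | ⟨b, hb, h⟩) | h)
        · left; exact hfirst b (hppH b hb) x h
        · right; exact hcoset b (hppH b (ppi_sub hb)) x h
        · right; exact hcoset L hLH x ((hvx x).1 h)
  -- iterate
  obtain ⟨n, hn⟩ := hev
  have hn0 : 0 < n := by omega
  have htS : f * g ∈ Stp W g := ⟨f, hf, Or.inl rfl⟩
  set q2 := qst g f xs xs ++ t' :: [] with hq2
  have hq2p : q2.prod = v := by rw [hq2, List.prod_append]; simp [hvdef]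
  have hnN := N2_norm hB hg hH
  have hlv : lev N g v 1 := by
    unfold lev
    rw [pow_one]
    exact hcoset L hLH v hv
  have hlfa : lev N g (f * g) 1 := by
    unfold lev
    rw [pow_one, ← mul_assoc]
    exact hnN f (H_le_N2 hB hg hH hfH)
  have hlg : lev N g (q2.prod * (f * g)) 2 := by
    rw [hq2p]; exact lev_mul hnN hlv hlfa
  have hlX : ∀ y, y ∈ N ∨ g⁻¹ * y ∈ N → ∃ j, j ≤ 1 ∧ lev N g y j := by
    rintro y (h | h)
    · exact ⟨0, by omega, lev_zero h⟩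
    · exact ⟨1, le_refl _, by unfold lev; rwa [pow_one]⟩
  obtain ⟨q', hq', hp', -⟩ := h2.iterate htS n hn0 (by
    intro k hk hkn y hy hgy
    obtain ⟨j, hj, hlj⟩ := hlX y hy
    obtain ⟨i, hi, hli⟩ := hlX _ hgy
    have h3 := lev_mul hnN (lev_pow hnN hlg k) hlj
    have h4 : g ^ (2 * k + j - i) ∈ N := lev_sub hli h3 (by omega)
    have h5 := hrd _ h4
    have := Nat.le_of_dvd (by omega) h5
    omega)
  refine ⟨q', hq'.congr ?_, ?_⟩
  · intro x
    show x ∈ H ⊔ Subgroup.zpowers g ↔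
      ∃ i < n, ((q2.prod * (f * g)) ^ i)⁻¹ * x ∈ N ∨ g⁻¹ * (((q2.prod * (f * g)) ^ i)⁻¹ * x) ∈ N
    rw [← sup_eq2 hB hg hH, mem_adj hnN hr har]
    constructor
    · rintro ⟨j, hj, hx⟩
      refine ⟨j / 2, by omega, ?_⟩
      have h3 : lev N g ((q2.prod * (f * g)) ^ (j / 2)) (2 * (j / 2)) := lev_pow hnN hlg _
      have hx' : lev N g x j := hx
      rcases Nat.even_or_odd j with he | ho
      · left
        have : 2 * (j / 2) = j := Nat.two_mul_div_two_of_even he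
        rw [this] at h3
        exact lev_quot h3 hx'
      · right
        have h6 : 2 * (j / 2) + 1 = j := Nat.two_mul_div_two_add_one_of_odd ho
        have h7 := lev_mul hnN h3 (show lev N g g 1 by unfold lev; simp [N.one_mem])
        rw [h6] at h7
        have := lev_quot h7 hx'
        rwa [mul_inv_rev, mul_assoc] at this
    · rintro ⟨i, hi, hx⟩
      have h3 : lev N g ((q2.prod * (f * g)) ^ i) (2 * i) := lev_pow hnN hlg _
      rcases hx with hx | hx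
      · refine ⟨2 * i, by omega, ?_⟩
        have := lev_mul hnN h3 (lev_zero hx)
        rw [mul_inv_cancel_left] at this
        exact this
      · refine ⟨2 * i + 1, by omega, ?_⟩
        have h4 : lev N g (((q2.prod * (f * g)) ^ i)⁻¹ * x) 1 := by
          unfold lev; rwa [pow_one]
        have := lev_mul hnN h3 h4
        rw [mul_inv_cancel_left] at this
        exact this
  · intro hq'B
    have hfg : f * g ∉ B := mul_nmem' hg (hH hfH)
    have hvB : v ∉ B := by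
      intro h
      have h3 : g⁻¹ * v ∈ B := hNB (hcoset L hLH v hv)
      exact inv_nmem hg ((B.mul_mem_cancel_right h).1 h3)
    have h5 : q'.prod * (f * g) ∈ B := by
      rw [hp', hq2p]
      exact B.pow_mem (hB.odd _ hvB _ hfg) n
    exact hfg ((B.mul_mem_cancel_left hq'B).1 h5)

end Pool.Agent.E8helper78.I2
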