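import Pool.Agent.E8helper78.I2.Abel

/-!
The first element outside the abelian subgroup of index two.
-/

namespace Pool.Agent.E8helper78.I2

open Pool.Agent.E8helper78.NC

universe u

variable {Γ : Type u} [Group Γ]

/-- `B` is abelian and the product of two elements outside `B` lies in `B` -/
structure Two (B : Subgroup Γ) : Prop where
  comm : ∀ x ∈ B, ∀ y ∈ B, x * y = y * x
  odd : ∀ x, x ∉ B → ∀ y, y ∉ B → x * y ∈ B

/-- conjugation by `g` -/
def th (g : Γ) : Γ →* Γ := MonoidHom.mk' (fun b => g⁻¹ * b * g) (by intro a b; group)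

theorem th_apply (g b : Γ) : th g b = g⁻¹ * b * g := rfl

variable {B : Subgroup Γ} {g : Γ}

theorem inv_nmem (hg : g ∉ B) : g⁻¹ ∉ B := fun h => hg (by simpa using B.inv_mem h)

theorem mul_nmem (hg : g ∉ B) {b : Γ} (hb : b ∈ B) : g * b ∉ B :=
  fun h => hg ((B.mul_mem_cancel_right hb).1 h)

theorem mul_nmem' (hg : g ∉ B) {b : Γ} (hb : b ∈ B) : b * g ∉ B :=
  fun h => hg ((B.mul_mem_cancel_left hb).1 h)

theorem th_mem (hB : Two B) (hg : g ∉ B) {b : Γ} (hb : b ∈ B) : th g b ∈ B :=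
  hB.odd _ (mul_nmem (inv_nmem hg) hb) _ hg

theorem th_th (hB : Two B) (hg : g ∉ B) {b : Γ} (hb : b ∈ B) : th g (th g b) = b := by
  have h1 := hB.comm b hb (g * g) (hB.odd g hg g hg)
  have e : th g (th g b) = (g * g)⁻¹ * (b * (g * g)) := by
    rw [th_apply, th_apply]; group
  rw [e, h1]; group

theorem g_mul (hB : Two B) (hg : g ∉ B) {b : Γ} (hb : b ∈ B) : g * b = th g b * g := by
  have h1 := th_th hB hg hb
  rw [th_apply g (th g b)] at h1
  rw [← h1]
  have e : g * (g⁻¹ * th g b * g) = th g b * g := by group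
  rw [e, ← th_apply, th_th hB hg hb]

theorem ginv_mul {b : Γ} : g⁻¹ * b = th g b * g⁻¹ := by
  rw [th_apply]; group

theorem mul_g {b : Γ} : b * g = g * th g b := by
  rw [th_apply]; group

theorem conj_eq2 (hB : Two B) (hg : g ∉ B) {b : Γ} (hb : b ∈ B) : g * b * g⁻¹ = th g b := by
  rw [g_mul hB hg hb]; group

theorem com3 {A : Type u} [CommGroup A] (b z f : A) : b * (z * f⁻¹) = f⁻¹ * (z * b) := by
  rw [mul_left_comm b z, mul_comm b f⁻¹, mul_left_comm z]

theorem com4 {A : Type u} [CommGroup A] (b y z f : A) :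
    b⁻¹ * y⁻¹ * (z * f⁻¹) = z * (b⁻¹ * y⁻¹ * f⁻¹) := by
  rw [mul_left_comm]

/-- the commutative group `B` -/
@[reducible] def cgB (hB : Two B) : CommGroup B :=
  { (inferInstance : Group B) with
    mul_comm := by
      rintro ⟨x, hx⟩ ⟨y, hy⟩
      exact Subtype.ext (hB.comm x hx y hy) }

theorem F1 (hB : Two B) (hg : g ∉ B) {H : Subgroup Γ} (hH : H ≤ B) {f z b : Γ} (hf : f ∈ H)
    (hz : z ∈ H) (hb : b ∈ B) (x : Γ) :
    th g b * ((f * g * (z⁻¹ * g⁻¹))⁻¹ * x) ∈ H ↔ th g (z * b) * x ∈ H := by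
  have h1 : f * g * (z⁻¹ * g⁻¹) = f * (th g z)⁻¹ := by
    rw [← map_inv, ← conj_eq2 hB hg (B.inv_mem (hH hz))]; group
  have h2 := congrArg Subtype.val (@com3 B (cgB hB) ⟨th g b, th_mem hB hg hb⟩
    ⟨th g z, th_mem hB hg (hH hz)⟩ ⟨f, hH hf⟩)
  have h3 : th g b * (th g z * f⁻¹) = f⁻¹ * (th g z * th g b) := h2
  have h4 : th g b * ((f * g * (z⁻¹ * g⁻¹))⁻¹ * x) = f⁻¹ * (th g (z * b) * x) := by
    rw [h1, mul_inv_rev, inv_inv, map_mul, ← mul_assoc, h3, mul_assoc]
  rw [h4]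
  exact H.mul_mem_cancel_left (H.inv_mem hf)

theorem F2 (hB : Two B) (hg : g ∉ B) {H : Subgroup Γ} (hH : H ≤ B) {f y z b : Γ} (hf : f ∈ H)
    (hy : y ∈ H) (hz : z ∈ H) (hb : b ∈ B) (x : Γ) :
    (g * th g y * th g b)⁻¹ * ((f * g * (z⁻¹ * g⁻¹))⁻¹ * x) ∈ H ↔
      (g * th g f * th g (y * b))⁻¹ * x ∈ H := by
  have h1 : f * g * (z⁻¹ * g⁻¹) = f * (th g z)⁻¹ := by
    rw [← map_inv, ← conj_eq2 hB hg (B.inv_mem (hH hz))]; group
  have h2 := congrArg Subtype.val (@com4 B (cgB hB) ⟨th g b, th_mem hB hg hb⟩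
    ⟨th g y, th_mem hB hg (hH hy)⟩ ⟨z, hH hz⟩ ⟨th g f, th_mem hB hg (hH hf)⟩)
  have h3 : (th g b)⁻¹ * (th g y)⁻¹ * (z * (th g f)⁻¹) =
    z * ((th g b)⁻¹ * (th g y)⁻¹ * (th g f)⁻¹) := h2
  have h5 : g⁻¹ * (th g z * f⁻¹) = z * (th g f)⁻¹ * g⁻¹ := by
    rw [ginv_mul, map_mul, th_th hB hg (hH hz), map_inv]
  have h4 : (g * th g y * th g b)⁻¹ * ((f * g * (z⁻¹ * g⁻¹))⁻¹ * x) =
      z * ((g * th g f * th g (y * b))⁻¹ * x) := by
    rw [h1]
    calc (g * th g y * th g b)⁻¹ * ((f * (th g z)⁻¹)⁻¹ * x)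
        = (th g b)⁻¹ * (th g y)⁻¹ * (g⁻¹ * (th g z * f⁻¹)) * x := by group
      _ = (th g b)⁻¹ * (th g y)⁻¹ * (z * (th g f)⁻¹) * g⁻¹ * x := by
          rw [h5]; simp only [mul_assoc]
      _ = z * ((g * th g f * th g (y * b))⁻¹ * x) := by
          rw [h3, map_mul]; group
  rw [h4]
  exact H.mul_mem_cancel_left hz

theorem cov_zig (hB : Two B) (hg : g ∉ B) {H : Subgroup Γ} (hH : H ≤ B) :
    ∀ (ls rs : List Γ) (f : Γ), ls.length = rs.length → f ∈ H → (∀ x ∈ ls, x ∈ H) →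
      (∀ x ∈ rs, x ∈ H) → ∀ x, x ∈ cov H (qst g f ls rs) ↔
        (∃ b ∈ pp rs, th g b * x ∈ H) ∨
        (∃ b ∈ ppi ls, (g * th g f * th g b)⁻¹ * x ∈ H) := by
  intro ls
  induction ls with
  | nil =>
    intro rs f hl hf _ _ x
    cases rs with
    | nil => simp [qst, ppi, cov]
    | cons z rs => simp at hl
  | cons y ls ih =>
    intro rs f hl hf hls hrs x
    cases rs with
    | nil => simp at hl
    | cons z rs =>
      have hy : y ∈ H := hls y List.mem_cons_self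
      have hz : z ∈ H := hrs z List.mem_cons_self
      have hls' : ∀ x ∈ ls, x ∈ H := fun x hx => hls x (List.mem_cons_of_mem _ hx)
      have hrs' : ∀ x ∈ rs, x ∈ H := fun x hx => hrs x (List.mem_cons_of_mem _ hx)
      have ih' := ih rs y (by simpa using hl) hy hls' hrs'
      rw [qst, cov_cons, cov_cons]
      have e : (z⁻¹ * g⁻¹)⁻¹ * ((f * g)⁻¹ * x) = (f * g * (z⁻¹ * g⁻¹))⁻¹ * x := by group
      have e1 : ∀ b ∈ pp rs, (th g b * ((f * g * (z⁻¹ * g⁻¹))⁻¹ * x) ∈ H ↔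
          th g (z * b) * x ∈ H) := fun b hb => F1 hB hg hH hf hz (hH (pp_mem hrs' b hb)) x
      have e2 : ∀ b ∈ ppi ls, ((g * th g y * th g b)⁻¹ * ((f * g * (z⁻¹ * g⁻¹))⁻¹ * x) ∈ H ↔
          (g * th g f * th g (y * b))⁻¹ * x ∈ H) :=
        fun b hb => F2 hB hg hH hf hy hz (hH (pp_mem hls' b (ppi_sub hb))) x
      rw [e, ih', pp_cons, ppi_cons]
      simp only [List.mem_cons, List.mem_map]
      constructor
      · rintro (h | h | ⟨b, hb, h⟩ | ⟨b, hb, h⟩)
        · exact Or.inl ⟨1, Or.inl rfl, by simpa using h⟩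
        · refine Or.inr ⟨1, Or.inl rfl, ?_⟩
          rw [map_one, mul_one, ← mul_g]; exact h
        · exact Or.inl ⟨z * b, Or.inr ⟨b, hb, rfl⟩, (e1 b hb).1 h⟩
        · exact Or.inr ⟨y * b, Or.inr ⟨b, hb, rfl⟩, (e2 b hb).1 h⟩
      · rintro (⟨b, rfl | ⟨b, hb, rfl⟩, h⟩ | ⟨b, rfl | ⟨b, hb, rfl⟩, h⟩)
        · exact Or.inl (by simpa using h)
        · exact Or.inr (Or.inr (Or.inl ⟨b, hb, (e1 b hb).2 h⟩))
        · rw [map_one, mul_one, ← mul_g] at h
          exact Or.inr (Or.inl h)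
        · exact Or.inr (Or.inr (Or.inr ⟨b, hb, (e2 b hb).2 h⟩))

theorem dis_zig (hB : Two B) (hg : g ∉ B) {H R : Subgroup Γ} (hH : H ≤ B)
    (hR : ∀ b ∈ H, th g b ∈ H → b ∈ R) :
    ∀ (ls rs : List Γ) (f : Γ), ls.length = rs.length → f ∈ H → (∀ x ∈ ls, x ∈ H) →
      (∀ x ∈ rs, x ∈ H) → dis R ls → dis R rs → dis H (qst g f ls rs) := by
  intro ls
  induction ls with
  | nil =>
    intro rs f hl hf _ _ _ _
    cases rs with
    | nil => simp [qst, dis]
    | cons z rs => simp at hl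
  | cons y ls ih =>
    intro rs f hl hf hls hrs dl dr
    cases rs with
    | nil => simp at hl
    | cons z rs =>
      have hy : y ∈ H := hls y List.mem_cons_self
      have hz : z ∈ H := hrs z List.mem_cons_self
      have hls' : ∀ x ∈ ls, x ∈ H := fun x hx => hls x (List.mem_cons_of_mem _ hx)
      have hrs' : ∀ x ∈ rs, x ∈ H := fun x hx => hrs x (List.mem_cons_of_mem _ hx)
      have hl' : ls.length = rs.length := by simpa using hl
      obtain ⟨dl1, dl2⟩ := pw_cons dl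
      obtain ⟨dr1, dr2⟩ := pw_cons dr
      have ih' := ih rs y hl' hy hls' hrs' dl1 dr1
      have hcov := cov_zig hB hg hH ls rs y hl' hy hls' hrs'
      have hmB : ∀ b ∈ pp rs, th g (z * b) ∈ B :=
        fun b hb => th_mem hB hg (B.mul_mem (hH hz) (hH (pp_mem hrs' b hb)))
      have hmB' : ∀ b ∈ pp ls, th g (y * b) ∈ B :=
        fun b hb => th_mem hB hg (B.mul_mem (hH hy) (hH (pp_mem hls' b hb)))
      rw [qst, dis_cons, dis_cons]
      refine ⟨⟨ih', ?_⟩, ?_⟩
      · have e : (z⁻¹ * g⁻¹)⁻¹ = (f * g * (z⁻¹ * g⁻¹))⁻¹ * (f * g) := by group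
        rw [e, hcov]
        rintro (⟨b, hb, h⟩ | ⟨b, hb, h⟩)
        · rw [F1 hB hg hH hf hz (hH (pp_mem hrs' b hb))] at h
          rw [← mul_assoc] at h
          exact mul_nmem' hg (B.mul_mem (hmB b hb) (hH hf)) (hH h)
        · have hb' := ppi_sub hb
          rw [F2 hB hg hH hf hy hz (hH (pp_mem hls' b hb'))] at h
          apply dl2 b hb'
          apply hR _ (H.mul_mem hy (pp_mem hls' b hb'))
          have e3 : (g * th g f * th g (y * b))⁻¹ * (f * g) = (th g (y * b))⁻¹ := by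
            rw [show f * g = g * th g f from mul_g]; group
          rw [e3] at h
          have := H.inv_mem h
          rwa [inv_inv] at this
      · rw [cov_cons, not_or]
        constructor
        · intro h
          exact inv_nmem (mul_nmem' hg (hH hf)) (hH h)
        · have e : (z⁻¹ * g⁻¹)⁻¹ * (f * g)⁻¹ = (f * g * (z⁻¹ * g⁻¹))⁻¹ * 1 := by group
          rw [e, hcov]
          rintro (⟨b, hb, h⟩ | ⟨b, hb, h⟩)
          · rw [F1 hB hg hH hf hz (hH (pp_mem hrs' b hb)), mul_one] at h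
            apply dr2 b hb
            exact hR _ (H.mul_mem hz (pp_mem hrs' b hb)) h
          · have hb' := ppi_sub hb
            rw [F2 hB hg hH hf hy hz (hH (pp_mem hls' b hb')), mul_one] at h
            have h1 := B.inv_mem (hH h)
            rw [inv_inv, mul_assoc] at h1
            exact mul_nmem hg (B.mul_mem (th_mem hB hg (hH hf)) (hmB' b hb')) h1

theorem prod_zig (hB : Two B) (hg : g ∉ B) {H : Subgroup Γ} (hH : H ≤ B) :
    ∀ (ls rs : List Γ) (f : Γ), ls.length = rs.length → f ∈ H → (∀ x ∈ ls, x ∈ H) →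
      (∀ x ∈ rs, x ∈ H) →
      (g * th g f * th g ls.prod)⁻¹ * ((qst g f ls rs).prod * (tl f ls * g)) ∈ H := by
  intro ls
  induction ls with
  | nil =>
    intro rs f hl hf _ _
    cases rs with
    | nil =>
      have e : (g * th g f * th g ([] : List Γ).prod)⁻¹ * ((qst g f [] []).prod * (tl f [] * g))
          = 1 := by
        simp only [qst, tl, List.prod_nil, map_one, mul_one, one_mul]
        rw [← mul_g]; group
      rw [e]; exact H.one_mem
    | cons z rs => simp at hl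
  | cons y ls ih =>
    intro rs f hl hf hls hrs
    cases rs with
    | nil => simp at hl
    | cons z rs =>
      have hy : y ∈ H := hls y List.mem_cons_self
      have hz : z ∈ H := hrs z List.mem_cons_self
      have hls' : ∀ x ∈ ls, x ∈ H := fun x hx => hls x (List.mem_cons_of_mem _ hx)
      have ih' := ih rs y (by simpa using hl) hy hls'
        (fun x hx => hrs x (List.mem_cons_of_mem _ hx))
      rw [qst, tl, List.prod_cons, List.prod_cons, List.prod_cons,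
        ← F2 hB hg hH hf hy hz (hH (pp_mem hls' _ (prod_mem_pp ls)))]
      have e : (f * g * (z⁻¹ * g⁻¹))⁻¹ * (f * g * (z⁻¹ * g⁻¹ * (qst g y ls rs).prod) *
          (tl y ls * g)) = (qst g y ls rs).prod * (tl y ls * g) := by group
      rw [e]; exact ih'

end Pool.Agent.E8helper78.I2
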